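import Mathlib
import Pool.Agent.H82.RD.Targets

/-!
# ZIN: adding the variable `Y` to independent variables
-/

set_option autoImplicit false

open MvPolynomial Pool.Agent.H82.RD

namespace Pool.Agent.H64.RD

theorem ind_iff {k : Type} [Field k] {u : ℕ} (p : Ideal (PR k u)) (s : Finset (Option (Fin u))) :
    Ind p s ↔ ∀ g : MvPolynomial s k,
      rename (Subtype.val : s → Option (Fin u)) g ∈ p → g = 0 := by
  rw [Ind, algebraicIndependent_iff]
  have key : ∀ g : MvPolynomial s k,
      aeval (fun i : s => Ideal.Quotient.mk p (X (i : Option (Fin u)) : PR k u)) g =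
        Ideal.Quotient.mk p (rename (Subtype.val : s → Option (Fin u)) g) := by
    intro g
    have h : (aeval (fun i : s => Ideal.Quotient.mk p (X (i : Option (Fin u)) : PR k u)) :
        MvPolynomial s k →ₐ[k] _) =
        (Ideal.Quotient.mkₐ k p).comp (rename (Subtype.val : s → Option (Fin u))) := by
      apply algHom_ext
      intro i
      simp
    rw [h]; rfl
  constructor
  · intro h g hg
    apply h g
    rw [key, Ideal.Quotient.eq_zero_iff_mem]
    exact hg
  · intro h g hg
    apply h g
    rw [key, Ideal.Quotient.eq_zero_iff_mem] at hg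
    exact hg

theorem pf_ZIN : T_ZIN := by
  classical
  intro k _ u p J hp hX hyc hJ
  set J' : Finset (Option (Fin u)) := J.map ⟨some, Option.some_injective _⟩ with hJ'
  rw [ind_iff] at hJ ⊢
  intro g hg
  set f : PR k u := rename (Subtype.val : (↑(insert none J') : Type) → Option (Fin u)) g with hf
  suffices h0 : f = 0 by
    have hinj := rename_injective (R := k)
      (Subtype.val : (↑(insert none J') : Type) → Option (Fin u)) Subtype.val_injective
    apply hinj
    rw [← hf, h0, map_zero]
  have hvars : ∀ m ∈ f.support, ∀ o, m o ≠ 0 → o ∈ insert none J' := by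
    intro m hm o ho
    have h1 : o ∈ f.vars := (mem_vars_iff_mem_support o).2 ⟨m, hm, Finsupp.mem_support_iff.2 ho⟩
    have h2 := vars_rename (Subtype.val : (↑(insert none J') : Type) → Option (Fin u)) g
    rw [← hf] at h2
    obtain ⟨x, _, hx⟩ := Finset.mem_image.1 (h2 h1)
    rw [← hx]
    exact x.2
  have hb : ∀ b : ℕ, yc b f = 0 := by
    intro b
    set fb : PR k u := ∑ m ∈ f.support.filter (fun m => m none = b),
      monomial (m.erase none) (f.coeff m) with hfb
    have h1 : yc b f = X none ^ b * fb := by
      rw [yc, hfb, Finset.mul_sum]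
      refine Finset.sum_congr rfl fun m hm => ?_
      rw [Finset.mem_filter] at hm
      rw [X_pow_eq_monomial, monomial_mul, one_mul]
      have hmm : m = Finsupp.single none b + m.erase none := by
        ext o
        rw [Finsupp.add_apply]
        by_cases ho : o = none
        · subst ho
          rw [Finsupp.single_eq_same, Finsupp.erase_same, hm.2, add_zero]
        · rw [Finsupp.single_eq_of_ne ho, Finsupp.erase_ne ho, zero_add]
      rw [← hmm]
    have h2 : fb ∈ p := by
      have h3 := hyc f hg b
      rw [h1] at h3
      rcases hp.mem_or_mem h3 with h4 | h4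
      · exact absurd (hp.mem_of_pow_mem b h4) hX
      · exact h4
    have h3 : (fb.vars : Set (Option (Fin u))) ⊆
        Set.range (Subtype.val : (↑J' : Type) → Option (Fin u)) := by
      intro o ho
      rw [Subtype.range_coe_subtype, Set.mem_ofPred_eq]
      rw [Finset.mem_coe, mem_vars_iff_mem_support] at ho
      obtain ⟨d, hd, hod⟩ := ho
      rw [mem_support_iff, hfb, coeff_sum] at hd
      obtain ⟨m, hm, hmd⟩ := Finset.exists_ne_zero_of_sum_ne_zero hd
      rw [coeff_monomial] at hmd
      have he : m.erase none = d := by
        by_contra hne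
        rw [if_neg hne] at hmd
        exact hmd rfl
      rw [Finsupp.mem_support_iff, ← he] at hod
      have hon : o ≠ none := by
        intro h; subst h; exact hod Finsupp.erase_same
      rw [Finsupp.erase_ne hon] at hod
      have := hvars m (Finset.mem_filter.1 hm).1 o hod
      rw [Finset.mem_insert] at this
      rcases this with h | h
      · exact absurd h hon
      · exact h
    obtain ⟨gb, hgb⟩ := exists_rename_eq_of_vars_subset_range fb
      (Subtype.val : (↑J' : Type) → Option (Fin u)) Subtype.val_injective h3
    have h4 : gb = 0 := hJ gb (by rw [hgb]; exact h2)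
    rw [h1, ← hgb, h4, map_zero, mul_zero]
  ext m
  rw [coeff_zero]
  by_contra hm
  have h1 := hb (m none)
  have h2 : (yc (m none) f).coeff m = f.coeff m := by
    rw [yc, coeff_sum, Finset.sum_eq_single m]
    · rw [coeff_monomial, if_pos rfl]
    · intro m' _ hne
      rw [coeff_monomial, if_neg hne]
    · intro hmn
      exfalso
      apply hmn
      rw [Finset.mem_filter, mem_support_iff]
      exact ⟨hm, rfl⟩
  rw [h1, coeff_zero] at h2
  exact hm h2.symm

end Pool.Agent.H64.RD
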